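import Pool.Agent.Helper94.KC.GoalsC

/-!
# Project KC, packet EX: far away points of the shortest cycle
-/

set_option autoImplicit false

namespace Pool.Agent.Helper25.KC

open scoped Classical
open Finset
open Pool.Agent.Helper94.KC

theorem s2_inj {V : Type} (e e' : Sym2 V) (h : e.toFinset = e'.toFinset) : e = e' := by
  apply Sym2.ext
  intro v
  rw [← Sym2.mem_toFinset, ← Sym2.mem_toFinset, h]

theorem mem_wed {V : Type} {G : SimpleGraph V} {x y : V} (w : G.Walk x y) (f : Finset V) :
    f ∈ wed w ↔ ∃ e ∈ w.edges, e.toFinset = f := by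
  unfold wed
  simp [List.mem_map]

/-- the arcs of a cycle starting at `p` -/
theorem arc {V : Type} [Fintype V] {T : Finset (Finset V)} (hSH : StmtSH) (hS : Surf T) {x : V}
    {w : (sk T).Walk x x} (hw : Shortest T w) {p : V} (c : (sk T).Walk p p) (hc : c.IsCycle)
    (hce : wed c = wed w) (hcl : c.length = w.length) (k : ℕ) (hk : 0 < k)
    (hkl : k < w.length) :
    min k (w.length - k) ≤ (sk T).dist p (c.getVert k) := by
  obtain ⟨b, hb⟩ := hS.conn.exists_walk_length_eq_dist p (c.getVert k)
  have hne : p ≠ c.getVert k := by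
    intro h
    have h1 := hc.getVert_injOn
    have h2 : c.getVert k = c.getVert c.length := by
      rw [SimpleGraph.Walk.getVert_length]
      exact h.symm
    have h3 := h1 (by simp only [Set.mem_ofPred_eq]; omega) (by simp only [Set.mem_ofPred_eq]; omega) h2
    omega
  have hA : (c.take k).IsPath := hc.isPath_take (by omega)
  have hB : (c.drop k).IsPath := hc.isPath_drop hk
  have happ := c.append_take_drop_eq k
  have hed : c.edges = (c.take k).edges ++ (c.drop k).edges := by
    rw [← SimpleGraph.Walk.edges_append, happ]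
  have hnd : c.edges.Nodup := hc.isCircuit.isTrail.edges_nodup
  have h := (hSH V T hS x w hw).2 p (c.getVert k) (c.take k) (c.drop k).reverse b hne hA
    ((SimpleGraph.Walk.isPath_reverse_iff _).2 hB) ?_ ?_
  · rw [SimpleGraph.Walk.take_length, SimpleGraph.Walk.length_reverse,
      SimpleGraph.Walk.drop_length, hb] at h
    rw [hcl] at h
    have e : k ⊓ w.length = k := by
      rw [inf_eq_left]
      omega
    rw [e] at h
    exact h
  · rw [Finset.disjoint_left]
    intro f h1 h2
    rw [mem_wed] at h1 h2
    obtain ⟨e1, he1, rfl⟩ := h1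
    obtain ⟨e2, he2, h3⟩ := h2
    have := s2_inj _ _ h3
    subst this
    rw [SimpleGraph.Walk.edges_reverse, List.mem_reverse] at he2
    rw [hed] at hnd
    exact (List.nodup_append.1 hnd).2.2 _ he1 _ he2 rfl
  · rw [← hce]
    ext f
    rw [Finset.mem_union, mem_wed, mem_wed, mem_wed, hed]
    simp only [SimpleGraph.Walk.edges_reverse, List.mem_reverse, List.mem_append]
    constructor
    · rintro (⟨e, he, h⟩ | ⟨e, he, h⟩)
      · exact ⟨e, Or.inl he, h⟩
      · exact ⟨e, Or.inr he, h⟩
    · rintro ⟨e, he | he, h⟩
      · exact Or.inl ⟨e, he, h⟩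
      · exact Or.inr ⟨e, he, h⟩

/-- the number of vertices of the shortest cycle in a ball -/
theorem ball_card {V : Type} [Fintype V] {T : Finset (Finset V)} (hSH : StmtSH) (hS : Surf T) {x : V}
    {w : (sk T).Walk x x} (hw : Shortest T w) (h : V) (K : ℕ) :
    (w.support.toFinset.filter (fun v => (sk T).dist h v ≤ K)).card ≤ 4 * K + 1 := by
  by_cases hne : (w.support.toFinset.filter (fun v => (sk T).dist h v ≤ K)).Nonempty
  · obtain ⟨p, hp⟩ := hne
    rw [Finset.mem_filter, List.mem_toFinset] at hp
    obtain ⟨hp1, hp2⟩ := hp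
    set c := w.rotate p hp1 with hcdef
    have hc : c.IsCycle := (SimpleGraph.Walk.isCycle_rotate hp1).2 hw.cyc
    have hcl : c.length = w.length := SimpleGraph.Walk.length_rotate w p hp1
    have hrot := SimpleGraph.Walk.rotate_edges w p hp1
    have hce : wed c = wed w := by
      ext f
      rw [mem_wed, mem_wed]
      constructor
      · rintro ⟨e, he, h⟩
        exact ⟨e, hrot.mem_iff.1 he, h⟩
      · rintro ⟨e, he, h⟩
        exact ⟨e, hrot.mem_iff.2 he, h⟩
    have hsub : w.support.toFinset.filter (fun v => (sk T).dist h v ≤ K) ⊆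
        (Finset.range (2 * K + 1) ∪ Finset.Ico (w.length - 2 * K) w.length).image c.getVert := by
      intro q hq
      rw [Finset.mem_filter, List.mem_toFinset] at hq
      obtain ⟨hq1, hq2⟩ := hq
      have hqc : q ∈ c.support := (SimpleGraph.Walk.mem_support_rotate_iff w p hp1).2 hq1
      rw [SimpleGraph.Walk.mem_support_iff_exists_getVert] at hqc
      obtain ⟨k, hk1, hk2⟩ := hqc
      rw [Finset.mem_image]
      by_cases h0 : k = 0 ∨ k = c.length
      · refine ⟨0, ?_, ?_⟩
        · simp
        · rw [SimpleGraph.Walk.getVert_zero]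
          rcases h0 with h0 | h0
          · rw [h0, SimpleGraph.Walk.getVert_zero] at hk1
            exact hk1
          · rw [h0, SimpleGraph.Walk.getVert_length] at hk1
            exact hk1
      · push Not at h0
        have ha := arc hSH hS hw c hc hce hcl k (by omega) (by omega)
        rw [hk1] at ha
        have ht : (sk T).dist p q ≤ 2 * K := by
          have h1 := hS.conn.dist_triangle (u := p) (v := h) (w := q)
          rw [SimpleGraph.dist_comm (u := p) (v := h)] at h1
          omega
        refine ⟨k, ?_, hk1⟩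
        rw [Finset.mem_union, Finset.mem_range, Finset.mem_Ico]
        rcases min_le_iff.1 (le_trans ha ht) with h1 | h1
        · left
          omega
        · right
          omega
    calc (w.support.toFinset.filter (fun v => (sk T).dist h v ≤ K)).card
        ≤ ((Finset.range (2 * K + 1) ∪ Finset.Ico (w.length - 2 * K) w.length).image c.getVert).card :=
          Finset.card_le_card hsub
      _ ≤ (Finset.range (2 * K + 1) ∪ Finset.Ico (w.length - 2 * K) w.length).card :=
          Finset.card_image_le
      _ ≤ (Finset.range (2 * K + 1)).card + (Finset.Ico (w.length - 2 * K) w.length).card :=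
          Finset.card_union_le _ _
      _ ≤ 4 * K + 1 := by
          rw [Finset.card_range, Nat.card_Ico]
          omega
  · rw [Finset.not_nonempty_iff_eq_empty] at hne
    rw [hne]
    simp

theorem supp_card {V : Type} {G : SimpleGraph V} {x : V} {w : G.Walk x x} (hc : w.IsCycle) :
    w.support.toFinset.card = w.length := by
  have h1 : w.support.toFinset = w.support.tail.toFinset := by
    ext v
    rw [List.mem_toFinset, List.mem_toFinset]
    constructor
    · intro h
      rw [← SimpleGraph.Walk.cons_tail_support, List.mem_cons] at h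
      rcases h with h | h
      · rw [h]
        exact SimpleGraph.Walk.end_mem_tail_support hc.not_nil
      · exact h
    · intro h
      exact List.mem_of_mem_tail h
  rw [h1, List.toFinset_card_of_nodup hc.support_nodup]
  simp

/-- StmtEX -/
theorem ex (hMM : StmtMM) (_hAC : StmtAC) (hSH : StmtSH) : StmtEX := by
  intro V _ T N K hS hdeg hchi x w hw hlen
  have hcard := supp_card hw.cyc
  have hH := (hMM V T hS hdeg).1
  set Hb := univ.filter (fun v => 7 ≤ dg T v) with hHb
  have hHN : Hb.card ≤ 6 * N := by
    have : (Hb.card : ℤ) ≤ 6 * N := by linarith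
    exact_mod_cast this
  set Bad := Hb.biUnion (fun h => w.support.toFinset.filter (fun v => (sk T).dist h v ≤ K)) with hBad
  have hBc : Bad.card ≤ 6 * N * (4 * K + 1) := by
    calc Bad.card ≤ Hb.card * (4 * K + 1) :=
          Finset.card_biUnion_le_card_mul _ _ _ (fun h _ => ball_card hSH hS hw h K)
      _ ≤ 6 * N * (4 * K + 1) := Nat.mul_le_mul_right _ hHN
  have good : ∀ v ∈ w.support, v ∉ Bad → ∀ h, 7 ≤ dg T h → K < (sk T).dist v h := by
    intro v hv hvB h hh
    by_contra hcon
    push Not at hcon
    apply hvB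
    rw [hBad, Finset.mem_biUnion]
    refine ⟨h, ?_, ?_⟩
    · rw [hHb, Finset.mem_filter]
      exact ⟨Finset.mem_univ _, hh⟩
    · rw [Finset.mem_filter, List.mem_toFinset, SimpleGraph.dist_comm]
      exact ⟨hv, hcon⟩
  obtain ⟨x₁, hx₁, hx₁B⟩ : ∃ v ∈ w.support.toFinset, v ∉ Bad := by
    apply Finset.exists_mem_notMem_of_card_lt_card
    rw [hcard]
    omega
  rw [List.mem_toFinset] at hx₁
  have h20 := ball_card hSH hS hw x₁ 20
  obtain ⟨x₂, hx₂, hx₂B⟩ : ∃ v ∈ w.support.toFinset,
      v ∉ Bad ∪ w.support.toFinset.filter (fun v => (sk T).dist x₁ v ≤ 20) := by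
    apply Finset.exists_mem_notMem_of_card_lt_card
    rw [hcard]
    have := Finset.card_union_le Bad (w.support.toFinset.filter (fun v => (sk T).dist x₁ v ≤ 20))
    omega
  rw [Finset.mem_union, not_or, Finset.mem_filter, not_and] at hx₂B
  have h21 := hx₂B.2 hx₂
  rw [List.mem_toFinset] at hx₂
  refine ⟨x₁, x₂, hx₁, hx₂, by omega, ?_⟩
  intro h hh
  exact ⟨good x₁ hx₁ hx₁B h hh, good x₂ hx₂ hx₂B.1 h hh⟩

end Pool.Agent.Helper25.KC
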